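import Pool.Agent.N508.HF.Step
import Pool.Agent.N508.HF.Real
import Pool.Agent.N508.HF.Finch2
import Pool.Agent.N508.HF.Polyf
import Pool.Agent.N508.HF.Cyc2
import Pool.Agent.N508.HF.Main2

/-!
# Extensions whose kernels have complete series of arbitrary order type

Let `C` be a class of groups with the closure properties `ClosedE` of the starting library; the groups
which satisfy the K-theoretic Farrell-Jones conjecture with coefficients and finite wreath products
form such a class. Let `N` be a normal subgroup of `G` such that `G / N` is in `C`. Suppose that for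
every `g` in `G` there is a series of subgroups of `N`, normal in `N⟨g⟩`, of arbitrary order type,
closed under unions and intersections, from `1` to `N`, with the following properties.

* For neighbours `K < K'` in the series and `x` in `N⟨g⟩` the group `K'⟨x⟩ / K` is in `C` (if `C`
  contains all metabelian groups, this holds if `K' / K` is abelian).
* Every finitely generated subgroup `M` of `N` meets the members of the series in finitely many
  subgroups, or `M` is polycyclic and `M / (M ∩ K)` is torsion-free for all members `K`.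

Then `G` is in `C`. If the series is well-ordered by inclusion then the second condition is not needed
(`Pool.Agent.R941.FJ.hyper`, starting library). New here are descending series and series of
other order types: every `N` that is locally polycyclic with a complete series of `G`-invariant
subgroups with torsion-free abelian factors is allowed.

Idea of the proof. We may assume that `G = N⟨g⟩`, and show that conjugation by an element `x` on a
finite subset `E` of `N` is realized in a group in `C`. Let `M` be the group generated by `E` and its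
conjugate. It meets the members of the series in finitely many subgroups: a chain of isolated
subgroups of a polycyclic group is finite. So there is a finite part of the series
`1 = J_0 ≤ J_1 ≤ ... ≤ J_n = N` such that for every `i` either `J_i < J_(i+1)` are neighbours, or
`M ∩ J_(i+1) ≤ J_i`. By induction along this series `M` embeds in a group in `C` in which the
conjugation is induced by an element; the step uses HNN extensions and fibre products over them.
-/

set_option autoImplicit false

namespace Pool.Agent.Results.MP_c052b4_al.CompleteSeriesKernels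

open Pool.Agent.Y110.FJ (ClosedE)

variable {G : Type} [Group G]

/-- `A` is normalized by `H`. -/
def NormalizedBy (H A : Subgroup G) : Prop :=
  ∀ u ∈ H, ∀ a ∈ A, u * a * u⁻¹ ∈ A

/-- `𝒦` is a complete series of `N`, of subgroups normalized by `H`: a set of subgroups of `N`,
normalized by `H`, that is totally ordered by inclusion, contains `1` and `N` and is closed under
unions and intersections of nonempty subsets. -/
structure CompleteSeries (H N : Subgroup G) (𝒦 : Set (Subgroup G)) : Prop where
  chain : IsChain (· ≤ ·) 𝒦
  inv : ∀ K ∈ 𝒦, NormalizedBy H K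
  le : ∀ K ∈ 𝒦, K ≤ N
  bot : ⊥ ∈ 𝒦
  top : N ∈ 𝒦
  sup : ∀ S : Set (Subgroup G), S ⊆ 𝒦 → S.Nonempty → sSup S ∈ 𝒦
  inf : ∀ S : Set (Subgroup G), S ⊆ 𝒦 → S.Nonempty → sInf S ∈ 𝒦

/-- `K < K'` are neighbours in `𝒦`. -/
def Neighbours (𝒦 : Set (Subgroup G)) (K K' : Subgroup G) : Prop :=
  K ∈ 𝒦 ∧ K' ∈ 𝒦 ∧ K < K' ∧ ∀ L ∈ 𝒦, K ≤ L → L ≤ K' → L = K ∨ L = K'

/-- `K ∩ H` is the kernel of a homomorphism from `H` to a group in `C`, that is, `H / (H ∩ K)` embeds
in a group in `C`. -/
def FactorIn (C : ∀ (G : Type) [Group G], Prop) (K H : Subgroup G) : Prop :=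
  ∃ (Q : Type) (_ : Group Q) (f : H →* Q), C Q ∧ ∀ y : H, f y = 1 ↔ (y : G) ∈ K

/-- `M` is polycyclic: there are subgroups `1 = D_0 ≤ D_1 ≤ ... ≤ D_s = M`, each normal in the next
one with cyclic quotient. -/
def Polycyclic (M : Subgroup G) : Prop :=
  ∃ (s : ℕ) (D : ℕ → Subgroup G), D 0 = ⊥ ∧ D s = M ∧ (∀ i, D i ≤ D (i + 1)) ∧
    ∀ i < s, NormalizedBy (D (i + 1)) (D i) ∧ ∃ t ∈ D (i + 1), D (i + 1) ≤ D i ⊔ Subgroup.zpowers t

/-- `K ∩ M` is isolated in `M`: elements of `M` with a positive power in `K` are in `K`. -/
def Isolated (M K : Subgroup G) : Prop :=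
  ∀ x ∈ M, ∀ n : ℕ, 0 < n → x ^ n ∈ K → x ∈ K

/-- `M` meets the members of `𝒦` in finitely many subgroups. -/
def FewSections (𝒦 : Set (Subgroup G)) (M : Subgroup G) : Prop :=
  {V : Subgroup G | ∃ K ∈ 𝒦, V = M ⊓ K}.Finite

/-- Let `C` be a class of groups with the closure properties `ClosedE` and `N` a normal subgroup of
`G` with `G / N` in `C`. Suppose that for every `g` there is a complete series `𝒦` of `N`, of subgroups
normalized by `N⟨g⟩`, such that `K'⟨x⟩ / K` is in `C` for all neighbours `K < K'` in `𝒦` and all `x` in
`N⟨g⟩`, and every finitely generated subgroup `M` of `N` meets the members of `𝒦` in finitely many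
subgroups, or is polycyclic with `M ∩ K` isolated in `M` for all `K` in `𝒦`. Then `G` is in `C`. -/
theorem result (C : ∀ (G : Type) [Group G], Prop) (hC : ClosedE C)
    (G : Type) [Group G] (N : Subgroup G) [N.Normal] (hQ : C (G ⧸ N))
    (h : ∀ g : G, ∃ 𝒦 : Set (Subgroup G), CompleteSeries (N ⊔ Subgroup.zpowers g) N 𝒦 ∧
      (∀ K K', Neighbours 𝒦 K K' →
        ∀ x ∈ N ⊔ Subgroup.zpowers g, FactorIn C K (K' ⊔ Subgroup.zpowers x)) ∧
      ∀ M : Subgroup G, M ≤ N → M.FG →
        FewSections 𝒦 M ∨ (Polycyclic M ∧ ∀ K ∈ 𝒦, Isolated M K)) : C G := by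
  refine Pool.Agent.N508.HF.main2
    (Pool.Agent.N508.HF.cyc2 (Pool.Agent.N508.HF.real_of_step Pool.Agent.N508.HF.t_step)
      Pool.Agent.N508.HF.t_finch2)
    Pool.Agent.N508.HF.t_polyf C hC G N hQ fun g => ?_
  obtain ⟨𝒦, h1, h2, h3⟩ := h g
  exact ⟨𝒦, ⟨h1.chain, h1.inv, h1.le, h1.bot, h1.top, h1.sup, h1.inf⟩, h2, h3⟩

end Pool.Agent.Results.MP_c052b4_al.CompleteSeriesKernels
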