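import Pool.Agent.N506.FN

/-!
# Matrix groups over group rings have finite decomposition complexity

`A` is an arbitrary commutative ring and `G` a group such that every finitely generated subgroup of
`G` has a subgroup of finite index which embeds in a direct product `S × RAAG Γ`, where `RAAG Γ` is a
right-angled Artin group and `S` has a finite subnormal series with torsion-free abelian factors
(for example: `G` virtually special, or polycyclic-by-finite, or a free solvable group, or a
direct product of such groups). Every group with a homomorphism to `GL_n(A[G])` whose kernel has
finite decomposition complexity has finite decomposition complexity.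
-/

namespace Pool.Agent.Results.MP_c052b4_al.MatrixGroupsFDC

open Pool.Agent.N506.EX Pool.Agent.N506.FX

universe u

theorem result (A : Type u) [CommRing A] (G : Type u) [Group G]
    (hG : ∀ K : Subgroup G, K.FG → ∃ (H : Subgroup K) (_ : H.FiniteIndex) (S : Type u)
      (_ : Group S) (V : Type u) (Γ : SimpleGraph V) (ι : H →* S × RAAG Γ),
      PolyTFA S ∧ Function.Injective ι)
    (n : ℕ) (P : Type u) [Group P] (φ : P →* (Matrix (Fin n) (Fin n) (MonoidAlgebra A G))ˣ)
    (hφ : FDC φ.ker) : FDC P :=
  FDC.ext φ (mfd_locally A G hG n) hφ

end Pool.Agent.Results.MP_c052b4_al.MatrixGroupsFDC
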