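import Pool.Agent.N316.TF.Thy

/-!
# One finitely generated torsionfree group decides the Farrell-Jones conjecture for torsionfree groups

Let `A_n : H_n → K_n`, `n ∈ ℤ`, be natural transformations of functors from groups to abelian groups, for
instance the assembly maps `H_n(BG; 𝐊(R)) → K_n(RG)` of a regular ring `R`. We assume that the functors
commute with directed colimits of groups, that they have long exact sequences for the HNN extensions
with associated subgroups which are free of countably infinite rank, compatible with the `A_n` (for
`K_n(R[-])` and regular `R` these are Waldhausen's exact sequences: the nilpotent terms vanish, as the
group rings of free groups over regular rings are regular coherent), and that the `A_n` are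
isomorphisms for the free group of countable rank.

There is ONE torsionfree group `V` with three generators, which does not depend on the functors, such
that for every `n`

* if `A_n` is surjective for `V` then it is surjective for all torsionfree groups;
* if `A_n` is injective and `A_{n+1}` surjective for `V` then `A_n` is injective for all torsionfree
  groups.

So the conjecture holds for all torsionfree groups (and a regular ring `R`) if and only if it holds for
`V`. More generally such a group exists for the groups without elements of the orders in a given set
`S` of natural numbers.

The point is that the conjecture without coefficients is not known to pass to subgroups, and that a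
torsionfree group need not be a directed colimit of finitely presented torsionfree groups.

Proof. Every torsionfree group is a directed colimit of the largest torsionfree factor groups `P_i` of
finitely presented groups, and these are countably many. They are retracts of their restricted
direct product `U`, which is countable: let `π : F → U` be surjective, `F` free with the basis `x_k`,
`k ∈ ℤ`. The HNN extension `V` of `U × (F ⋊ ℤ)` with `t (1, w) t⁻¹ = (π w, w)`, `w ∈ F`, is generated by
`t`, `x_0` and the generator of `ℤ`, it is torsionfree, and its associated subgroups are free. The
properties of `A_n` descend from `V` to its base group by the exact sequences, then to the retracts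
`U` and `P_i`, and then they pass to directed colimits.
-/

set_option autoImplicit false

namespace Pool.Agent.Results.MP_c052b4_al.OneTorsionFreeGroup

open Pool.Agent.N316.TF Pool.Agent.N316.TF.Th

/-- For every set `S` of natural numbers there is a group `V` with three generators and without
elements of the finite orders in `S` (`NoTor S V`), such that for all natural transformations `α` (`Trans`)
between families of functors from groups to abelian groups which commute with directed colimits and
have compatible exact sequences for HNN extensions with associated subgroups free of countably
infinite rank (`Thy`), which are isomorphisms on the free group of countably infinite rank, and for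
every `n`: if `α` is surjective on `V` in degree `n` then it is surjective in degree `n` on all groups `G`
with `NoTor S G`; if `α` is injective on `V` in degree `n` and surjective in degree `n + 1`, then it is
injective in degree `n` on all groups `G` with `NoTor S G`. -/
theorem result (S : Set ℕ) : ∃ (V : Type) (_ : Group V),
    (∃ g : Fin 3 → V, Subgroup.closure (Set.range g) = ⊤) ∧ NoTor S V ∧
    ∀ (H K : Thy) (α : Trans H K) (n : ℤ),
      (SurjOn α n V → ∀ (G : Type) [Group G], NoTor S G → SurjOn α n G) ∧
      (InjOn α n V → SurjOn α (n + 1) V → ∀ (G : Type) [Group G], NoTor S G → InjOn α n G) := by
  obtain ⟨V, iV, h1, h2, h3⟩ := universal S
  refine ⟨V, iV, h1, h2, ?_⟩
  intro H K α n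
  refine ⟨fun hV G _ hG => ?_, fun hV hV' G _ hG => ?_⟩
  · exact h3 _ (desc_surj α n) hV G hG
  · exact (h3 _ (desc_inj α n) ⟨hV, hV'⟩ G hG).1

end Pool.Agent.Results.MP_c052b4_al.OneTorsionFreeGroup
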