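import Pool.Agent.N508.CS.Main
import Pool.Agent.N508.CS.Stab
import Pool.Agent.N508.CS.Qd
import Pool.Agent.N508.CS.Hom
import Pool.Agent.N508.CS.Finite
import Pool.Agent.N508.CS.Top
import Pool.Agent.N508.CS.Cyf
import Pool.Agent.N508.CS.Sy
import Pool.Agent.N508.CS.Sc
import Pool.Agent.N508.CS.Zq
import Pool.Agent.N508.CS.Tin

/-!
# Groups acting on trees: compatible series on the cylinders of edges

`C` is any class of groups with the closure properties `ClosedE C` which contains the metabelian
groups and satisfies `AcylF C`: a finitely generated group that acts on a tree without inversions, such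
that the pointwise stabilizers of long paths have bounded order, is in `C` if the vertex stabilizers
are in `C`. All this is known for the class of the groups whose wreath products with finite groups
satisfy the Farrell-Jones conjecture in K-theory and in L-theory with coefficients (`AcylF` is a
theorem of Knopf).

Let `G` act on a tree with vertex stabilizers `G_v` in `C`.

(1) Let `K` be normal in `G` with `G / K` in `C`, and let `r` be an equivariant family of equivalence
relations on the edges at the vertices `v` such that the stabilizers of inequivalent edges at `v` have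
at most `n` common elements. For an edge `e` at `v` let `K_[v,e]` be the stabilizer in `K_v` of the class
of `e`. Suppose that these groups have series `1 = A₀(v,e) ≤ A₁(v,e) ≤ ... ≤ A_m(v,e) = K_[v,e]`,
equivariant and the same for equivalent edges, which are compatible: `Aᵢ(v,e) ∩ G_e = Aᵢ(u,e) ∩ G_e` for
each edge `e = vu` (`CylS`). Suppose that for each `i < m`

* (`CylV`) the groups `Aᵢ₊₁(v,e) ⟨x⟩ / Aᵢ(v,e)`, `x` in `G_[v,e]`, embed in groups in `C`, and
* (`CylH`) for all edges the image of `Aᵢ₊₁(v,e) ∩ G_e` in `Aᵢ₊₁(v,e) / Aᵢ(v,e)` embeds in the
  abelianization of this group, or (`CylQ`) for all edges this image is finite.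

Then `G` is in `C`. If all edges at each vertex are equivalent this is the theorem on compatible series.

(2) Let `𝓐 v` be sets of nilpotent subgroups of class at most `c` of the stabilizers `G_v` (`TIN`),
invariant under conjugation by `G`, such that different members of `𝓐 v` have at most `n` common
elements, every edge stabilizer `E` with more than `n` elements is contained in members `A`, `B` of the
sets at both ends and `E ∩ Z_i(A) = E ∩ Z_i(B)` for the terms of the upper central series, and `N(A) / A`
embeds in a group in `C` for the normalizers `N(A)` in `G_v` of the members `A`. Then `G` is in `C`.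

For example, the vertex groups may be hyperbolic relative to nilpotent subgroups of bounded class, with
the edge groups (of finite or infinite index) in peripheral subgroups at both ends. Many edges at one
vertex may lead to the same peripheral subgroup.

Outline of the proof. By the theorem on trees of cylinders (`t_cyf`) it suffices that the stabilizers `L`
of the cylinders are in `C`. `L` acts on a subtree, and the groups `L ∩ Aᵢ(v,e)`, `e` an edge of the
cylinder at `v`, form compatible series of the vertex stabilizers in `L ∩ K`. Now `S_MAIN` applies. (2)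
follows from (1) with the upper central series of the members which contain the edge groups.
-/

set_option autoImplicit false

namespace Pool.Agent.Results.MP_c052b4_al.SeriesOnCylinders

open Pool.Agent.Y110.FJ (ClosedE)
open Pool.Agent.N509.TX (AcylF)
open Pool.Agent.N508.CS

theorem result (C : ∀ (G : Type) [Group G], Prop) (hC : ClosedE C)
    (hM : ∀ (G : Type) [Group G], derivedSeries G 2 = ⊥ → C G) (hA : AcylF C)
    {G V : Type} [Group G] [MulAction G V] (T : SimpleGraph V) (hT : T.IsTree)
    (hact : ∀ (g : G) (u v : V), T.Adj u v → T.Adj (g • u) (g • v))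
    (hV : ∀ v : V, C ↥(MulAction.stabilizer G v)) (n : ℕ) :
    (∀ (m : ℕ) (r : V → V → V → Prop) (K : Subgroup G) [K.Normal], C (G ⧸ K) →
      ∀ A : ℕ → V → V → Subgroup G, CylS n m T r K A →
      (∀ i < m, (∀ v u : V, T.Adj v u → A i v u ≤ A (i + 1) v u) ∧
        CylV C T r (A i) (A (i + 1)) ∧ (CylH T (A i) (A (i + 1)) ∨ CylQ T (A i) (A (i + 1)))) →
      C G) ∧
    (∀ (c : ℕ) (𝓐 : V → Set (Subgroup G)), TIN C n c T 𝓐 → C G) := by
  have h1 : ∀ (m : ℕ) (r : V → V → V → Prop) (K : Subgroup G) [K.Normal], C (G ⧸ K) →
      ∀ A : ℕ → V → V → Subgroup G, CylS n m T r K A →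
      (∀ i < m, (∀ v u : V, T.Adj v u → A i v u ≤ A (i + 1) v u) ∧
        CylV C T r (A i) (A (i + 1)) ∧ (CylH T (A i) (A (i + 1)) ∨ CylQ T (A i) (A (i + 1)))) →
      C G := fun m r K _ hQ A hS hstep =>
    t_sc (t_sy (t_main (t_qd t_stab) t_h t_f t_top)) t_cyf C hC hM hA n m G V T hT hact hV r K hQ A
      hS hstep
  refine ⟨h1, fun c 𝓐 h => ?_⟩
  obtain ⟨m, r, A, hS, hstep⟩ := t_tin t_zq C hC hM n c G V T hT hact hV 𝓐 h
  refine h1 m r ⊤ (hM _ ?_) A hS hstep
  have hs : Subsingleton (G ⧸ (⊤ : Subgroup G)) := QuotientGroup.subsingleton_quotient_top
  exact Subsingleton.elim _ _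

end Pool.Agent.Results.MP_c052b4_al.SeriesOnCylinders
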